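import Mathlib

set_option autoImplicit false

/-!
# MP_5f6ee5_nt (weight 10): multiplicative rigidity of the odd integers of I_k in every abelian group

THEOREM (M). For every `k ≥ 10^45` and every odd `n` with `(3000 n)^4 ≤ k^3` there are multisets `A`, `B`
of odd integers of `I_k = ((2k-1)^2, (2k+1)^2)`, `|A| = |B|`, with `n * prod A = prod B`.

NOTATION. `N = 2k`. `f` is completely multiplicative on odd numbers with values in an abelian group `G`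
and equal to `κ` on the odd integers of `((N-1)^2, (N+1)^2)`. `cl N v = floor ((v-N)^2 / (2v))`.

FLOW. LNK -> CLS (f depends only on the class cl N v for odd v > N).
SCL, SEP, VRS, MON, VAR -> GOD (the good rectangle). GOD, CLS, CTR, RCT -> JMP (f v = f (v+2) for odd v in
[N-1, N+E]). JMP -> WIN (f = f (N+1) for |v - N| ≤ E/2) -> RNG (f r = f (r+2) for odd r in [2N/F, F/2])
-> FIN (f n = 1 for odd n ≤ F/2). PRM: choice of the parameters. GRP: from f to multisets.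

RULES. No `convert`, `congr!`, `notation`, `macro`, `native_decide`, `sorry`; no straight double quotes in
comments. Natural number subtraction is avoided or harmless in all statements (see the docstrings).
-/

namespace Pool.Agent.MGP

/-- Completely multiplicative on odd numbers. (`f 1 = 1` follows from `m = n = 1`.) -/
def OddMul {G : Type} [CommGroup G] (f : ℕ → G) : Prop :=
  ∀ m n : ℕ, Odd m → Odd n → f (m * n) = f m * f n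

/-- `f = κ` on the odd integers strictly between `(N-1)^2` and `(N+1)^2`. -/
def Flat {G : Type} (f : ℕ → G) (N : ℕ) (κ : G) : Prop :=
  ∀ n : ℕ, Odd n → (N - 1) ^ 2 < n → n < (N + 1) ^ 2 → f n = κ

/-- The class of `v ≥ N`. -/
def cl (N v : ℕ) : ℕ := (v - N) ^ 2 / (2 * v)

/-- The parameters: `z = floor (sqrt N)`, `H ^ 2 ≥ 6 z`, `500 H (E + 70 z) ≤ N`, `H ≥ 1000`. -/
def Par (N z H E : ℕ) : Prop :=
  Even N ∧ 1 ≤ z ∧ z ^ 2 ≤ N ∧ N < (z + 1) ^ 2 ∧ 6 * z ≤ H ^ 2 ∧ 1000 ≤ H ∧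
    500 * H * (E + 70 * z) ≤ N

/-- A scale: `t^2 - (h+2)^2 < σ < t^2 - h^2`, `t + h` odd, `h` about `K` (between `K - 1` and
`1.16 K`). -/
def Sc (σ K t h : ℕ) : Prop :=
  Odd (t + h) ∧ h ^ 2 + σ < t ^ 2 ∧ t ^ 2 < (h + 2) ^ 2 + σ ∧ K ≤ h + 1 ∧ 25 * h ≤ 29 * K

/-- **PRB** (easy). `Par N z H E` gives: (a) `34000 H ≤ z`, (b) `500000 E ≤ N`, (c) `N ≤ 2 z^2`,
(d) `500 H E ≤ N`.
PROOF. (a) `35000 H z ≤ 500 H (E + 70 z) ≤ N < (z+1)^2 = z^2 + 2z + 1 ≤ z^2 + 3z` (`z ≥ 1`), divide by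
`z`: `35000 H < z + 3`, and `H ≥ 1000`. (b) `500 * 1000 * E ≤ 500 H E ≤ N`. (c) `N < (z+1)^2 ≤ 2z^2`,
`z ≥ 3`. -/
def PrbStmt : Prop := ∀ N z H E : ℕ, Par N z H E →
  34000 * H ≤ z ∧ 500000 * E ≤ N ∧ N ≤ 2 * z ^ 2 ∧ 500 * H * E ≤ N

/-- **LNK** (easy). Let `m = N + e` be even, `2j(m+1) < e^2 < 2(j+1)(m-1)`. Then `f (m-1) = f (m+1)`.
PROOF. (`e ≥ 1`, so `m - 1 ≥ N`.) Put `u = N - e + 2j + 1` (an integer, odd). In integers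
`u (m-1) - (N-1)^2 = 2(j+1)(m-1) - e^2 > 0` and `(N+1)^2 - u (m+1) = e^2 - 2j(m+1) > 0`. The first gives
`u > 0`, so `u` is a natural number; also `u (m-1) < u (m+1) < (N+1)^2` and
`(N-1)^2 < u (m-1) < u (m+1)`. So `f u * f (m-1) = κ = f u * f (m+1)`. -/
def LnkStmt : Prop := ∀ (G : Type) [CommGroup G] (f : ℕ → G) (N : ℕ) (κ : G),
  OddMul f → Flat f N κ → Even N → 2 ≤ N → ∀ e j : ℕ, Even e →
  2 * j * (N + e + 1) < e ^ 2 → e ^ 2 < 2 * (j + 1) * (N + e - 1) → f (N + e - 1) = f (N + e + 1)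

/-- **MON** (easy). The class is monotone: `N ≤ a ≤ b`, `0 < a` give `cl N a ≤ cl N b`.
PROOF. Let `j = cl N a`, so `j * 2a ≤ (a-N)^2` (`Nat.div_mul_le_self`). Write `a = N + x`, `b = N + x + y`.
If `j = 0` nothing to prove. `2ja ≤ x^2 ≤ x a` gives `2j ≤ x`, so `2 j y ≤ x y ≤ 2xy + y^2`, hence
`2jb = 2ja + 2jy ≤ x^2 + 2xy + y^2 = (b-N)^2`; `Nat.le_div_iff_mul_le`. -/
def MonStmt : Prop := ∀ N a b : ℕ, 0 < a → N ≤ a → a ≤ b → cl N a ≤ cl N b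

/-- **VAR** (easy). `N ≤ a ≤ b`, `0 < a`, `(b-a)(b-N) < N` give `cl N b ≤ cl N a + 1`.
PROOF. Let `j = cl N a`, so `(a-N)^2 < 2(j+1)a` (`Nat.lt_div_mul_add` or `Nat.div_lt_iff_lt_mul`).
`(b-N)^2 = (a-N)^2 + (b-a)(a+b-2N) ≤ (a-N)^2 + 2(b-a)(b-N) < 2(j+1)a + 2N ≤ 2(j+1)b + 2b = 2(j+2)b`, so
`cl N b < j + 2`. -/
def VarStmt : Prop := ∀ N a b : ℕ, 0 < a → N ≤ a → a ≤ b → (b - a) * (b - N) < N →
  cl N b ≤ cl N a + 1

/-- **CLS** (easy-medium; uses LNK, MON). `f` depends only on the class: odd `v ≤ w`, `N < v`,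
`cl N v = cl N w` give `f v = f w`.
PROOF. Induction on `w`. `w = v`: trivial. Else `w ≥ v + 2` and by MON (`v ≤ w-2 ≤ w`)
`cl N (w-2) = cl N w = j`, `f v = f (w-2)` by induction. For `f (w-2) = f w` use LNK with
`e = w - 1 - N` (even, `N + e - 1 = w - 2`, `N + e + 1 = w`). Let `b = w - 2 - N` (odd, `≥ 1`), `e = b + 1`.
`cl N (w-2) = j`: `2j(w-2) ≤ b^2`, so (`b ≤ w-2`, cancel) `2j ≤ b`, and as `b` is odd
`2j(w-2) < b^2`, `2j + 1 ≤ b`. Then `e^2 = b^2 + 2b + 1 > 2j(w-2) + 4j = 2jw` as `2b + 1 > 4j`.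
`cl N w = j`: `(b+2)^2 < 2(j+1)w`; `e^2 = (b+2)^2 - 2(b+2) + 1 < 2(j+1)w - 2b - 3 ≤ 2(j+1)(w-2)` as
`2b + 3 ≥ 4j + 5 > 4(j+1)`. -/
def ClsStmt : Prop := ∀ (G : Type) [CommGroup G] (f : ℕ → G) (N : ℕ) (κ : G),
  OddMul f → Flat f N κ → Even N → 2 ≤ N → ∀ v w : ℕ, Odd v → Odd w → N < v → v ≤ w →
  cl N v = cl N w → f v = f w

/-- **CTR** (easy). `b` odd, `b^2 + 1 < 2N`: `f (N-b) * f (N+b) = κ`.
PROOF. `b < N` (else `N^2 ≤ b^2 < 2N`, `N < 2`); `(N-b)(N+b) = N^2 - b^2` is odd and lies strictly between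
`(N-1)^2 = N^2 - 2N + 1` and `(N+1)^2`. -/
def CtrStmt : Prop := ∀ (G : Type) [CommGroup G] (f : ℕ → G) (N : ℕ) (κ : G),
  OddMul f → Flat f N κ → Even N → 2 ≤ N → ∀ b : ℕ, Odd b → b ^ 2 + 1 < 2 * N →
  f (N - b) * f (N + b) = κ

/-- **RCT** (easy). The rectangle identity. PROOF. `f (r(c+2)) f ((r+20)(c+42)) = f ((r+20)(c+2)) f (r(c+42))`
(both are `f r f (c+2) f (r+20) f (c+42)`), and `f ((r+2)c) f ((r+22)(c+40)) = f ((r+22)c) f ((r+2)(c+40))`.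
-/
def RctStmt : Prop := ∀ (G : Type) [CommGroup G] (f : ℕ → G), OddMul f → ∀ r c : ℕ, Odd r → Odd c →
  f ((r + 22) * c) = f ((r + 20) * (c + 2)) → f ((r + 2) * (c + 40)) = f (r * (c + 42)) →
  f ((r + 22) * (c + 40)) = f ((r + 20) * (c + 42)) → f ((r + 2) * c) = f (r * (c + 2))

/-- **SCL** (easy-medium; uses PRB). Existence of a scale for `t = Nat.sqrt (σ + K^2) + 1`.
PROOF. `q = Nat.sqrt (σ+K^2)`, `q^2 ≤ σ + K^2 < (q+1)^2 = t^2`. `w := t^2 - σ`: `K^2 < w` and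
`w = q^2 + 2q + 1 - σ ≤ K^2 + 2q + 1`. `t`: `z^2 ≤ N ≤ σ` gives `q ≥ z`, `t ≥ z + 1`;
`(t-1)^2 ≤ N + E + 1 + 64 H^2` and `N ≤ z^2 + 2z`, `E ≤ N/500000`, `64 H^2 ≤ z^2/10^6`, so
`(t-1)^2 ≤ z^2 + 2z + 1 + z^2/100000`, `100 t ≤ 101 z` (`z ≥ 34 * 10^6`). So `2q + 1 ≤ 2.02 z + 1 ≤ 0.34 H^2
≤ 0.34 K^2` (`6z ≤ H^2`) and `w < 1.342 K^2 < (29K/25)^2 = 1.3456 K^2`.
`h`: let `h0 = Nat.sqrt (w-1)`, `h0^2 < w ≤ (h0+1)^2`. If `t + h0` is odd take `h = h0`. If it is even take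
`h = h0 - 1` (`h0 ≥ 1` as `w ≥ 2`): `(h+2)^2 = (h0+1)^2 ≥ w`, and `=` is impossible by parity (`t + h0 + 1`
is odd, so `t^2` and `(h0+1)^2` have different parity, `σ` is even). `K^2 < w < (h+2)^2` gives
`K ≤ h + 1`; `h^2 < w` gives `25 h ≤ 29 K`. -/
def SclStmt : Prop := ∀ N z H E σ K t : ℕ, Par N z H E → Even σ → N ≤ σ → σ ≤ N + E + 1 →
  H ≤ K → K ≤ 8 * H → t = Nat.sqrt (σ + K ^ 2) + 1 →
  z ≤ t ∧ 100 * t ≤ 101 * z ∧ ∃ h : ℕ, Sc σ K t h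

/-- **SEP** (medium, arithmetic; uses PRB). Two scales `K ≥ 2K'` at the same `σ` (data `t, h` for `K`,
`t', h'` for `K'`): the intervals between corresponding corners are separated.
PROOF. In integers put `T = t^2 - h^2`, `T' = t'^2 - h'^2`: `σ + 1 ≤ T ≤ σ + 4h + 3`,
`σ + 1 ≤ T' ≤ σ + 4h' + 3`. Expand: `(t+h+20)(t-h) = T + 20t - 20h`, `(t+h+22)(t-h-2) = T + 20t - 24h - 44`,
`(t+h)(t-h+40) = T + 40t + 40h`, `(t+h+2)(t-h+38) = T + 40t + 36h + 76`,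
`(t+h+20)(t-h+40) = T + 60t + 20h + 800`, `(t+h+22)(t-h+38) = T + 60t + 16h + 836`.
Also `(t-t')(t+t') = t^2 - t'^2 < (h+2)^2 - h'^2` and `t + t' ≥ 2z`, so `2z (t - t') ≤ (h+2)^2`; with
`h ≤ 1.16 K ≤ 9.28 H`, `34000 H ≤ z`: `20 (t-t') ≤ K/10` (`10 (h+2)^2 ≤ 15 K^2 ≤ 120 H K ≤ z K / 10`).
First: need `4h + 3 + 20t - 20h < 1 + 20t' - 24h' - 44`, i.e. `20(t-t') + 24h' + 46 < 16h`; `h ≥ K - 1`,
`24 h' ≤ 24 * 1.16 * K/2 = 13.92 K`, `K ≥ 2000`: `0.1 K + 13.92 K + 46 < 16K - 16`.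
Second: need `44h' + 3 + 40t' < 1 + 40t + 36h + 76`; `t' ≤ t`, `44 h' ≤ 25.52 K`.
Third: need `24h' + 60t' + 803 < 60t + 16h + 837`; `24h' ≤ 13.92K < 16K - 16 + 34`. -/
def SepStmt : Prop := ∀ N z H E σ K K' t t' h h' : ℕ, Par N z H E → N ≤ σ → H ≤ K' → 2 * K' ≤ K →
  K ≤ 8 * H → z ≤ t' → t' ≤ t → Sc σ K t h → Sc σ K' t' h' →
  ((t : ℤ) + h + 20) * (t - h) < ((t' : ℤ) + h' + 22) * (t' - h' - 2) ∧
  ((t' : ℤ) + h') * (t' - h' + 40) < ((t : ℤ) + h + 2) * (t - h + 38) ∧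
  ((t' : ℤ) + h' + 20) * (t' - h' + 40) < ((t : ℤ) + h + 22) * (t - h + 38)

/-- **VRS** (medium, arithmetic; uses PRB). Same data: total variation of the class between the corners.
PROOF. Expansions, `T`, `T'` and `2z (t-t') ≤ (h+2)^2` as in SEP; `h ≤ 9.28 H`, so `60 (t - t') ≤ H`
(`30 (h+2)^2 ≤ 30 * 90 H^2 ≤ H z`). `t, t' ≤ 1.01 z`, `44 h ≤ 409 H ≤ z/80`.
(1) `C1(h') - C1'(h) ≤ (σ+4h'+3+20t'-20h') - (σ+1+20t-24h-44) ≤ 24h + 46 ≤ 224 H` (and it is `≥ 0` if you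
need it, by SEP), `C1(h') - N ≤ E + 1 + 4h' + 3 + 20t' - 20h' ≤ E + 21z`; product `≤ 224 H (E + 21 z) < N`.
(2) `C2(h) - C2'(h') ≤ 44h + 40(t-t') + 3 ≤ 410 H`, `C2(h) - N ≤ E + 4 + 44h + 40t ≤ E + 42 z`.
(3) `C3(h) - C3'(h') ≤ 24h + 60(t-t') + 3 ≤ 225 H`, `C3(h) - N ≤ E + 804 + 24h + 60t ≤ E + 62z`.
In all cases the product is `≤ 410 H (E + 62 z) < 500 H (E + 70 z) ≤ N`. If one of the factors is negative
or zero the other is positive and the claim is trivial (`C - N > 0` always because `T > σ ≥ N` and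
`t ≥ z ≥ 34000 H > h`). -/
def VrsStmt : Prop := ∀ N z H E σ K K' t t' h h' : ℕ, Par N z H E → N ≤ σ → σ ≤ N + E + 1 → H ≤ K' →
  2 * K' ≤ K → K ≤ 8 * H → z ≤ t' → t' ≤ t → 100 * t ≤ 101 * z → Sc σ K t h → Sc σ K' t' h' →
  (((t' : ℤ) + h' + 20) * (t' - h') - ((t : ℤ) + h + 22) * (t - h - 2)) *
    (((t' : ℤ) + h' + 20) * (t' - h') - N) < N ∧
  (((t : ℤ) + h) * (t - h + 40) - ((t' : ℤ) + h' + 2) * (t' - h' + 38)) *
    (((t : ℤ) + h) * (t - h + 40) - N) < N ∧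
  (((t : ℤ) + h + 20) * (t - h + 40) - ((t' : ℤ) + h' + 22) * (t' - h' + 38)) *
    (((t : ℤ) + h + 20) * (t - h + 40) - N) < N

/-- **GOD** (medium; uses PRB, MON, VAR, SCL, SEP, VRS). The good rectangle at `σ`.
PROOF. For `s = 0, 1, 2, 3` let `K_s = 2^(3-s) H`, `t_s = Nat.sqrt (σ + K_s^2) + 1` and `h_s` from SCL;
`t_s` is nonincreasing in `s` (`Nat.sqrt_le_sqrt`). Put `r_s = t_s + h_s`, `c_s = t_s - h_s - 2` (natural
numbers: `h_s ≤ 9.28 H`, `t_s ≥ z ≥ 34000 H`; `c_s ≥ z - 10H ≥ 100 H`; both odd). Then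
`(r+2)c = t^2 - (h+2)^2 < σ < t^2 - h^2 = r(c+2)`, `r(c+2) - (r+2)c = 4h + 4 ≤ 40 H`, `r - c = 2h + 2`.
Corners `C1' = (r+22)c`, `C1 = (r+20)(c+2)`, `C2' = (r+2)(c+40)`, `C2 = r(c+42)`, `C3' = (r+22)(c+40)`,
`C3 = (r+20)(c+42)`; in integers these are the products of SEP and VRS (`c + 2 = t - h`). `Ci' ≤ Ci` as
`r ≥ c + 1000`, and all are `> N` (`C ≥ (r+2)c + 20c > σ - 40H + 20c ≥ N`, or `≥ rc + 40 r`).
PIGEONHOLE. For each `i` at most one `s` has `cl N Ci'(s) ≠ cl N Ci(s)`: let `s < s'` be two of them, so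
by MON `cl Ci'(s) < cl Ci(s)` and the same for `s'`. `i = 1`: `C1(s) < C1'(s')` (SEP), so
`cl C1'(s) < cl C1(s) ≤ cl C1'(s') < cl C1(s')`, i.e. `cl C1(s') ≥ cl C1'(s) + 2`, against VAR for
`a = C1'(s) ≤ b = C1(s')` and VRS (1). `i = 2, 3`: the same with `s`, `s'` exchanged:
`Ci'(s') < Ci(s') < Ci'(s) < Ci(s)`. Three values of `i`, four values of `s`: one `s` is good for all `i`.
(Suggestion: prove a lemma for a pair `s < s'` giving the three exclusions, apply it to the 6 pairs, then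
`by_contra` / `tauto` / `omega` on the 12 equalities.) -/
def GodStmt : Prop := ∀ N z H E σ : ℕ, Par N z H E → Even σ → N ≤ σ → σ ≤ N + E + 1 →
  ∃ r c : ℕ, Odd r ∧ Odd c ∧ (r + 2) * c < σ ∧ σ < r * (c + 2) ∧ r * (c + 2) ≤ σ + 40 * H ∧
    σ ≤ (r + 2) * c + 40 * H ∧ 100 * H ≤ c ∧ c + 1000 ≤ r ∧
    cl N ((r + 22) * c) = cl N ((r + 20) * (c + 2)) ∧
    cl N ((r + 2) * (c + 40)) = cl N (r * (c + 42)) ∧
    cl N ((r + 22) * (c + 40)) = cl N ((r + 20) * (c + 42))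

/-- **JMP** (medium; uses PRB, MON, VAR, CLS, CTR, RCT, GOD). `f v = f (v+2)` for odd `v` in `[N-1, N+E]`.
PROOF. `σ = v + 1` (even). Take `r, c` of GOD, `T = r(c+2)`, `T' = (r+2)c` (odd), so `T' ≤ v`, `v + 2 ≤ T`.
The corners are odd, `> N` (`(r+22)c = T' + 20c ≥ σ - 40H + 2000H > N`, the others similarly) and ordered
(`r ≥ c + 1000`: `(r+22)c ≤ (r+20)(c+2)`, `(r+2)(c+40) ≤ r(c+42)`, `(r+22)(c+40) ≤ (r+20)(c+42)`), so CLS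
and RCT give `f T' = f T`.
Case `v ≥ N`, so `v > N`. If `cl N v = cl N (v+2)`: CLS. Otherwise `cl N v < cl N (v+2)` (MON), so
`cl N (v+2) ≥ 1`, `(v+2-N)^2 ≥ 2(v+2) > 2N ≥ 2z^2 ≥ (34000H)^2`, so `v + 2 - N > 34000 H` and
`T' ≥ σ - 40H > N`. By VAR on `T' ≤ T` (`(T-T')(T-N) ≤ 80H (E + 1 + 40H) < N`) `cl N T ≤ cl N T' + 1`; with
MON `cl T' ≤ cl v < cl (v+2) ≤ cl T` we get `cl T' = cl v`, `cl (v+2) = cl T`, so by CLS
`f v = f T' = f T = f (v+2)`.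
Case `v = N - 1`, `σ = N`: `T = N + b`, `T' = N - b'`, `b, b' ≤ 40 H` odd. `cl N (N+x) = 0` for `x ≤ 40H`
(`x^2 ≤ 1600 H^2 < 2N`), so `f T = f (N+1)` and `f (N+b') = f (N+1)` by CLS; by CTR
`f (N-b') f (N+b') = κ = f (N-1) f (N+1)`, so `f T' = f (N-1)`. Hence `f (N-1) = f T' = f T = f (N+1)`. -/
def JmpStmt : Prop := ∀ (G : Type) [CommGroup G] (f : ℕ → G) (N z H E : ℕ) (κ : G),
  OddMul f → Flat f N κ → Par N z H E → ∀ v : ℕ, Odd v → N ≤ v + 1 → v ≤ N + E → f v = f (v + 2)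

/-- **WIN** (easy-medium; uses CTR). From JMP: `f = f (N+1)` near `N`.
PROOF. `c := f (N+1)`. By induction `f v = c` for all odd `v` in `[N-1, N+E+2]` (`f (N-1) = f (N+1)`).
`κ = f (N-1) f (N+1) = c * c` (CTR with `b = 1`). Let `v = N - b`, `b` odd, `3 ≤ b ≤ E/2`. Let
`q = (N-1)^2 / v` (floor) and `u` the odd one of `q+1`, `q+2`. `u v ≥ (q+1) v > (N-1)^2` and
`u v ≤ (N-1)^2 + 2v < (N+1)^2`. `u > N - 1` (`u v > (N-1)^2 ≥ (N-1) v`), so `u ≥ N + 1`... (`u` odd, `N` even);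
`u ≤ q + 2 ≤ N + E`: enough `(N-1)^2 < (N + E - 1)(N - b)`, i.e. `N (E + 1 - b) > (E-1) b + 1`, true as
`b ≤ E/2`, `2E ≤ N`. So `f u = c`, `f u * f v = κ = c * c`, `f v = c`. -/
def WinStmt : Prop := ∀ (G : Type) [CommGroup G] (f : ℕ → G) (N E : ℕ) (κ : G),
  OddMul f → Flat f N κ → Even N → 100 ≤ E → 2 * E ≤ N →
  (∀ v : ℕ, Odd v → N ≤ v + 1 → v ≤ N + E → f v = f (v + 2)) →
  κ = f (N + 1) * f (N + 1) ∧
  ∀ v : ℕ, Odd v → N ≤ v + E / 2 → v ≤ N + E → f v = f (N + 1)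

/-- **RNG** (easy). `f = c` on odd `v`, `|v - N| ≤ F`, gives `f r = f (r+2)` for odd `r`, `2N ≤ rF`,
`2r ≤ F`. PROOF. `q = N / r` (floor), `q ≥ 2` (`2r ≤ F ≤ N`), `a` = the odd one of `q`, `q - 1`. `r a ≤ N`,
`r a ≥ r (q-1) > N - 2r ≥ N - F`; `2 a r ≤ 2N ≤ r F` gives `2a ≤ F`, so `(r+2) a = r a + 2a ≤ N + F`. So
`f r f a = c = f (r+2) f a`. -/
def RngStmt : Prop := ∀ (G : Type) [CommGroup G] (f : ℕ → G) (N F : ℕ) (c : G),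
  OddMul f → F ≤ N → (∀ v : ℕ, Odd v → N ≤ v + F → v ≤ N + F → f v = c) →
  ∀ r : ℕ, Odd r → 2 * N ≤ r * F → 2 * r ≤ F → f r = f (r + 2)

/-- **FIN** (easy). PROOF. By induction `f r = f R` for all odd `r ≥ R` with `2r ≤ F` (the condition
`2N ≤ r' F` holds for `r' ≥ R`). If `n` is odd and `2 n R ≤ F` then `f n f R = f (nR) = f R`, so `f n = 1`.
In particular `f R = 1` (`2R^2 ≤ F`), so `f r = 1` for odd `r ≥ R`, `2r ≤ F`. Let `n` be odd, `2n ≤ F`: if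
`n ≥ R` done; if `n < R` then `2nR ≤ 2R^2 ≤ F`, `f n = 1`. -/
def FinStmt : Prop := ∀ (G : Type) [CommGroup G] (f : ℕ → G) (N F R : ℕ),
  OddMul f → (∀ r : ℕ, Odd r → 2 * N ≤ r * F → 2 * r ≤ F → f r = f (r + 2)) →
  Odd R → 2 * N ≤ R * F → 2 * R ^ 2 ≤ F → ∀ n : ℕ, Odd n → 2 * n ≤ F → f n = 1

/-- **PRM** (medium, arithmetic). Choice of the parameters.
PROOF. `N = 2k`, `z = Nat.sqrt N`, `H = Nat.sqrt (6z) + 1` (`6z < H^2`, `H ≤ sqrt (6z) + 1`),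
`E = N / (500 H) - 70 z` (natural subtraction; `500 H (E + 70z) ≤ N` because `N/(500H) ≥ 70z`),
`F = E/2`, `R = ` an odd number with `2N/F ≤ R ≤ 2N/F + 2` (for instance `2 * (N/F) + 3` is also
good enough: `R F > 2N`). With real `x = N^(1/4) ≥ 2 * 10^11`: `x^2 - 1 < z ≤ x^2`,
`H ≤ 2.4496 x`, `N/(500H) ≥ x^3/1224.8 - 1`, `70 z ≤ 70 x^2 ≤ x^3 / 10^9`, so `E ≥ x^3/1225`,
`F ≥ x^3/2450 - 1 ≥ x^3/2451`, `R ≤ 4902 x + 3 ≤ 4903 x`, `2R^2 ≤ 4.81 * 10^7 x^2 ≤ F` because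
`x ≥ 2 * 10^11 > 4.81 * 10^7 * 2451 = 1.18 * 10^11`. `n`: `(3000 n)^4 ≤ k^3 = x^12/8`, so
`n ≤ x^3/(3000 * 8^(1/4)) ≤ x^3 / 5045` (`8^(1/4) = 1.6817..`, use `5045^4 ≤ 8 * 3000^4`), and
`2n ≤ x^3/2522 ≤ F`. (To avoid real roots: everything can be done with `H`: `6z < H^2 ≤ 6z + 2H`,
`36 N < ...`; choose what you like.) -/
def PrmStmt : Prop := ∀ k n : ℕ, 10 ^ 45 ≤ k → (3000 * n) ^ 4 ≤ k ^ 3 →
  ∃ z H E R : ℕ, Par (2 * k) z H E ∧ 100 ≤ E ∧ Odd R ∧ 2 * (2 * k) ≤ R * (E / 2) ∧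
    2 * R ^ 2 ≤ E / 2 ∧ 2 * n ≤ E / 2

/-- **GRP** (medium). From completely multiplicative functions to multisets.
PROOF. `Γ : Subgroup ℚˣ := Subgroup.closure {x | ∃ a b, P a ∧ P b ∧ (x : ℚ) = a / b}`, `G = ℚˣ ⧸ Γ` (a
commutative group), `f n = ` the class of the unit `(n : ℚ)` for `n ≠ 0` and `1` for `n = 0`
(`Units.mk0`). `OddMul f`; `f` is constant on `P`: if `P m0` then `f m = f m0 =: κ` for `P m` (`m/m0 ∈ Γ`,
`QuotientGroup.eq`), if `P` is empty take `κ = 1`. So `f n₀ = 1`, i.e. the unit `n₀` is in `Γ`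
(`QuotientGroup.eq_one_iff`). `Subgroup.closure_induction` for the predicate on units `x`: there are
multisets `A, B` with elements in `P`, `A.card = B.card` and `x * (A.prod : ℚ) = (B.prod : ℚ)`: generator
`a/b`: `A = {b}`, `B = {a}`; `1`: empty; product: sums of the multisets; inverse: exchange (`A.prod ≠ 0`).
Cast back to `ℕ`. -/
def GrpStmt : Prop := ∀ (P : ℕ → Prop) (n₀ : ℕ), (∀ m, P m → 0 < m) → Odd n₀ →
  (∀ (G : Type) [CommGroup G] (f : ℕ → G) (κ : G), OddMul f → (∀ m, P m → f m = κ) → f n₀ = 1) →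
  ∃ A B : Multiset ℕ, A.card = B.card ∧ (∀ m ∈ A, P m) ∧ (∀ m ∈ B, P m) ∧
    n₀ * A.prod = B.prod

/-- The final statement. -/
def MainStmt : Prop := ∀ k : ℕ, 10 ^ 45 ≤ k → ∀ n : ℕ, Odd n → (3000 * n) ^ 4 ≤ k ^ 3 →
  ∃ A B : Multiset ℕ, A.card = B.card ∧
    (∀ m ∈ A, Odd m ∧ (2 * k - 1) ^ 2 < m ∧ m < (2 * k + 1) ^ 2) ∧
    (∀ m ∈ B, Odd m ∧ (2 * k - 1) ^ 2 < m ∧ m < (2 * k + 1) ^ 2) ∧
    n * A.prod = B.prod

end Pool.Agent.MGP
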